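import Mathlib
import Pool.Agent.MP_f65396_co.h15n.Main

/-!
For every `ε > 0` and all large `n`, a graph with `n (n + 1) / 2` edges in which every vertex set
spans a subgraph of average degree at most `(1 - ε) n` has an ascending subgraph decomposition
into star forests.
-/

set_option autoImplicit false

namespace Pool.Agent.Results.MP_f65396_co.NotClique

theorem result : ∀ ε : ℝ, 0 < ε → ∃ n0 : ℕ,
    ∀ (V : Type) [Fintype V] (G : SimpleGraph V) (n : ℕ), n0 ≤ n →
    G.edgeSet.ncard = n * (n + 1) / 2 →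
    (∀ S : Finset V, 2 * ({e ∈ G.edgeSet | ∀ v ∈ e, v ∈ S}.ncard : ℝ) ≤ (1 - ε) * n * S.card) →
    ∃ H : Fin n → SimpleGraph V,
      (⨆ i, H i) = G ∧
      Pairwise (fun i j => Disjoint (H i).edgeSet (H j).edgeSet) ∧
      (∀ i : Fin n, (H i).edgeSet.ncard = i.val + 1) ∧
      (∀ i j : Fin n, j.val = i.val + 1 →
        ∃ f : V → V, Function.Injective f ∧
          ∀ u v : V, (H i).Adj u v → (H j).Adj (f u) (f v)) ∧
      ∀ (i : Fin n) (u v : V), (H i).Adj u v →
        (∀ w : V, (H i).Adj u w → w = v) ∨ ∀ w : V, (H i).Adj v w → w = u :=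
  fun ε hε => Pool.Agent.MP_f65396_co.h15n.main ε hε

end Pool.Agent.Results.MP_f65396_co.NotClique
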